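import Pool.Agent.Q237.LR.Stm4
import Pool.Agent.Q223.LR.POW1

/-!
Project LR (helper237, MP_1906c1_mp), job LP1: the power law with a logarithm is admissible and summable.
-/

set_option autoImplicit false

namespace Pool.Agent.Q182.LR

open MeasureTheory ProbabilityTheory Set H10PL Pool.Agent.Q237.LR3 Pool.Agent.Q237.LR4

theorem one_le_nrm {d : ℕ} {z : Fin d → ℤ} (hz : z ≠ 0) : 1 ≤ ‖z‖ := by
  obtain ⟨i, hi⟩ := Function.ne_iff.1 hz
  have h1 : (1 : ℝ) ≤ ‖z i‖ := by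
    rw [Int.norm_eq_abs]
    have h2 : 1 ≤ |z i| := Int.one_le_abs hi
    exact_mod_cast h2
  exact h1.trans (norm_le_pi_norm z i)

theorem log_bd (γ δ : ℝ) (hγ : 0 ≤ γ) (hδ : 0 < δ) :
    ∃ C : ℝ, 0 ≤ C ∧ ∀ t : ℝ, 1 ≤ t → Real.log (1 + t) ^ γ ≤ C * t ^ δ := by
  set ε := δ / (γ + 1) with hε
  have hε0 : 0 < ε := div_pos hδ (by linarith)
  have hεγ : ε * γ ≤ δ := by
    rw [hε, div_mul_eq_mul_div, div_le_iff₀ (by linarith)]
    nlinarith
  refine ⟨2 ^ (ε * γ) / ε ^ γ, by positivity, fun t ht => ?_⟩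
  have h0 : 0 ≤ Real.log (1 + t) := Real.log_nonneg (by linarith)
  calc Real.log (1 + t) ^ γ ≤ ((1 + t) ^ ε / ε) ^ γ :=
        Real.rpow_le_rpow h0 (Real.log_le_rpow_div (by linarith) hε0) hγ
    _ ≤ ((2 * t) ^ ε / ε) ^ γ := by
        refine Real.rpow_le_rpow (by positivity) ?_ hγ
        exact div_le_div_of_nonneg_right (Real.rpow_le_rpow (by linarith) (by linarith) hε0.le)
          hε0.le
    _ = 2 ^ (ε * γ) / ε ^ γ * t ^ (ε * γ) := by
        rw [Real.div_rpow (by positivity) hε0.le, ← Real.rpow_mul (by positivity),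
          Real.mul_rpow (by norm_num) (by linarith)]
        ring
    _ ≤ 2 ^ (ε * γ) / ε ^ γ * t ^ δ :=
        mul_le_mul_of_nonneg_left (Real.rpow_le_rpow_of_exponent_le ht hεγ) (by positivity)

theorem pl_bd (d : ℕ) (α α' γ e : ℝ) (hα : α' < α) (hγ : 0 ≤ γ) :
    ∃ C : ℝ, ∀ z : Fin d → ℤ, pl d α γ e z ^ 2 ≤ (if z = 0 then 0 else C * ‖z‖ ^ (-α')) ^ 2 := by
  obtain ⟨C, hC, h⟩ := log_bd γ (α - α') hγ (by linarith)
  refine ⟨|e| * C, fun z => ?_⟩
  unfold pl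
  split_ifs with hz
  · exact le_rfl
  · have h1 := one_le_nrm hz
    have hp : 0 < ‖z‖ := by linarith
    rw [← sq_abs]
    refine pow_le_pow_left₀ (abs_nonneg _) ?_ 2
    have hl : 0 ≤ Real.log (1 + ‖z‖) ^ γ :=
      Real.rpow_nonneg (Real.log_nonneg (by linarith)) _
    rw [abs_mul, abs_mul, abs_of_nonneg hl, abs_of_nonneg (Real.rpow_nonneg hp.le _)]
    calc |e| * ‖z‖ ^ (-α) * Real.log (1 + ‖z‖) ^ γ
        ≤ |e| * ‖z‖ ^ (-α) * (C * ‖z‖ ^ (α - α')) :=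
          mul_le_mul_of_nonneg_left (h _ h1)
            (mul_nonneg (abs_nonneg _) (Real.rpow_nonneg hp.le _))
      _ = |e| * C * (‖z‖ ^ (-α) * ‖z‖ ^ (α - α')) := by ring
      _ = |e| * C * ‖z‖ ^ (-α') := by
          rw [← Real.rpow_add hp]
          congr 2
          ring

theorem lp1 : Pool.Agent.Q237.LR3.S_ADJ → S_LP1 := by
  intro hadj d α γ e hd hα hγ
  obtain ⟨α', h1, h2⟩ := exists_between hα
  obtain ⟨C, hC⟩ := pl_bd d α α' γ e h2 hγ
  obtain ⟨hs, θ, hθ0, hθ2, hs2⟩ := Pool.Agent.Q223.LR.pow1 d α' C hd h1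
  have hA := (hadj d α e hd hα).1
  refine ⟨⟨hA.T0symm, hA.T0diag, hA.T0range, hA.T0sum, ?_, ?_, ?_⟩, θ, hθ0, hθ2, ?_⟩
  · unfold pl
    rw [if_pos rfl]
  · intro y
    unfold pl
    rw [norm_neg]
    by_cases hy : y = 0
    · rw [if_pos hy, if_pos (by rw [hy, neg_zero])]
    · rw [if_neg hy, if_neg (by rwa [neg_eq_zero])]
  · exact Summable.of_nonneg_of_le (fun z => sq_nonneg _) hC hs
  · refine Summable.of_nonneg_of_le (fun z => mul_nonneg (sq_nonneg _)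
      (Real.rpow_nonneg (norm_nonneg _) _)) (fun z => ?_) hs2
    exact mul_le_mul_of_nonneg_right (hC z) (Real.rpow_nonneg (norm_nonneg _) _)

end Pool.Agent.Q182.LR
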