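import Pool.Agent.Q237.LR.Stm

/-!
Project LR (helper237, MP_1906c1_mp), job PRB: the law of finitely many signs.
-/

set_option autoImplicit false

namespace Pool.Agent.Q182.LR

open MeasureTheory ProbabilityTheory H10PL Pool.Agent.Q237.LR

theorem coin_singleton (b : Bool) : coin {b} = 2⁻¹ := by
  unfold coin
  rw [PMF.toMeasure_apply_singleton _ _ (MeasurableSet.singleton b), PMF.uniformOfFintype_apply]
  simp

theorem cyl (d : ℕ) (Λ : Finset (Fin d → ℤ)) (ε : Sym2 Λ → Bool) :
    (Ps d) ((fun (s : Sym2 (Fin d → ℤ) → Bool) (e : Sym2 Λ) => s (e.map Subtype.val)) ⁻¹' {ε}) =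
      (2⁻¹ : ENNReal) ^ Fintype.card (Sym2 Λ) := by
  classical
  have hinj : Function.Injective (Sym2.map (Subtype.val : Λ → (Fin d → ℤ))) :=
    Sym2.map.injective Subtype.val_injective
  have hset : ((fun (s : Sym2 (Fin d → ℤ) → Bool) (e : Sym2 Λ) => s (e.map Subtype.val)) ⁻¹' {ε}) =
      Set.pi ((Finset.univ.image (Sym2.map (Subtype.val : Λ → (Fin d → ℤ))) :
        Finset (Sym2 (Fin d → ℤ))) : Set (Sym2 (Fin d → ℤ)))
        (fun j => {b : Bool | ∀ e : Sym2 Λ, e.map Subtype.val = j → b = ε e}) := by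
    ext s
    simp only [Set.mem_preimage, Set.mem_singleton_iff, Set.mem_pi, Finset.coe_image,
      Finset.coe_univ, Set.image_univ, Set.mem_range, Set.mem_ofPred_eq]
    constructor
    · rintro h _ ⟨e, rfl⟩ e' he'
      rw [← h, hinj he']
    · intro h
      funext e
      exact h _ ⟨e, rfl⟩ e rfl
  rw [hset]
  unfold Ps
  rw [Measure.infinitePi_pi _ (fun i _ => MeasurableSet.of_discrete),
    Finset.prod_image (fun x _ y _ h => hinj h)]
  have h1 : ∀ e : Sym2 Λ, coin {b : Bool | ∀ e' : Sym2 Λ, e'.map Subtype.val =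
      e.map (Subtype.val : Λ → (Fin d → ℤ)) → b = ε e'} = 2⁻¹ := by
    intro e
    have : {b : Bool | ∀ e' : Sym2 Λ, e'.map Subtype.val =
        e.map (Subtype.val : Λ → (Fin d → ℤ)) → b = ε e'} = {ε e} := by
      ext b
      simp only [Set.mem_ofPred_eq, Set.mem_singleton_iff]
      constructor
      · intro h
        exact h e rfl
      · intro h e' he'
        rw [hinj he', h]
    rw [this, coin_singleton]
  rw [Finset.prod_congr rfl (fun e _ => h1 e)]
  simp

theorem prb : S_PRB := by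
  intro d Λ P
  have hm : Measurable (fun (s : Sym2 (Fin d → ℤ) → Bool) (e : Sym2 Λ) =>
      s (e.map Subtype.val)) := measurable_pi_lambda _ fun e => measurable_pi_apply _
  have h := sum_measure_preimage_singleton (μ := Ps d) P
    (f := fun (s : Sym2 (Fin d → ℤ) → Bool) (e : Sym2 Λ) => s (e.map Subtype.val))
    (fun y _ => hm (MeasurableSet.singleton y))
  have h2 : {s : Sym2 (Fin d → ℤ) → Bool | (fun e : Sym2 Λ => s (e.map Subtype.val)) ∈ P} =
      (fun (s : Sym2 (Fin d → ℤ) → Bool) (e : Sym2 Λ) => s (e.map Subtype.val)) ⁻¹' (P : Set _) :=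
    rfl
  rw [h2, ← h, Finset.sum_congr rfl (fun ε _ => cyl d Λ ε), Finset.sum_const, nsmul_eq_mul,
    div_eq_mul_inv, ENNReal.ofReal_mul (Nat.cast_nonneg _), ENNReal.ofReal_natCast,
    ENNReal.ofReal_inv_of_pos (by positivity), ENNReal.ofReal_pow (by norm_num),
    ENNReal.ofReal_ofNat, ENNReal.inv_pow]

end Pool.Agent.Q182.LR
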