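import Pool.Agent.Q237.LR.Stm5

/-!
# Project LR, third theorem, JOB SP1: mass of the points where a finite measure is large
-/

set_option autoImplicit false

namespace Pool.Agent.Q182.LR5

open MeasureTheory Set Filter Topology Pool.Agent.Q237.LR5

/-- the Poisson kernel (without the factor `1 / π`) -/
noncomputable def ker (η t E : ℝ) : ℝ := η / ((t - E) ^ 2 + η ^ 2)

lemma ker_nonneg {η : ℝ} (hη : 0 < η) (t E : ℝ) : 0 ≤ ker η t E := by
  unfold ker
  positivity

lemma ker_cont {η : ℝ} (hη : 0 < η) : Continuous fun q : ℝ × ℝ => ker η q.1 q.2 := by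
  unfold ker
  refine Continuous.div continuous_const (by fun_prop) fun q => ?_
  positivity

lemma sub_ne {η : ℝ} (hη : 0 < η) (t E : ℝ) : (t : ℂ) - zE E η ≠ 0 := by
  intro h
  have h1 := congrArg Complex.im h
  unfold zE at h1
  simp at h1
  exact hη.ne' h1

lemma im_ker {η : ℝ} (_hη : 0 < η) (t E : ℝ) : (1 / ((t : ℂ) - zE E η)).im = ker η t E := by
  rw [one_div, Complex.inv_im]
  unfold ker zE
  have h1 : ((t : ℂ) - ((E : ℂ) + (η : ℂ) * Complex.I)).im = -η := by simp
  have h2 : Complex.normSq ((t : ℂ) - ((E : ℂ) + (η : ℂ) * Complex.I)) = (t - E) ^ 2 + η ^ 2 := by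
    rw [Complex.normSq_apply, h1]
    simp
    ring
  rw [h1, h2, neg_neg]

lemma integ {η : ℝ} (hη : 0 < η) (m : Measure ℝ) [IsFiniteMeasure m] (E : ℝ) :
    Integrable (fun t : ℝ => 1 / ((t : ℂ) - zE E η)) m := by
  refine Integrable.of_bound (C := 1 / η) ?_ (Eventually.of_forall fun t => ?_)
  · refine (Continuous.div continuous_const (by fun_prop) fun t => sub_ne hη t E).aestronglyMeasurable
  · rw [norm_div, norm_one]
    refine one_div_le_one_div_of_le hη ?_
    have h1 := Complex.abs_im_le_norm ((t : ℂ) - zE E η)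
    have h2 : ((t : ℂ) - zE E η).im = -η := by unfold zE; simp
    rw [h2, abs_neg, abs_of_pos hη] at h1
    exact h1

lemma im_int {η : ℝ} (hη : 0 < η) (m : Measure ℝ) [IsFiniteMeasure m] (E : ℝ) :
    (∫ t : ℝ, 1 / ((t : ℂ) - zE E η) ∂m).im = ∫ t, ker η t E ∂m := by
  have h1 := Complex.imCLM.integral_comp_comm (integ hη m E)
  have h2 : Complex.imCLM (∫ t : ℝ, 1 / ((t : ℂ) - zE E η) ∂m) =
      (∫ t : ℝ, 1 / ((t : ℂ) - zE E η) ∂m).im := rfl
  rw [← h2, ← h1]
  refine integral_congr_ae (Eventually.of_forall fun t => ?_)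
  exact im_ker hη t E

lemma ker_integ {η : ℝ} (hη : 0 < η) (m : Measure ℝ) [IsFiniteMeasure m] (E : ℝ) :
    Integrable (fun t => ker η t E) m := by
  refine Integrable.of_bound (C := 1 / η) ?_ (Eventually.of_forall fun t => ?_)
  · have h1 : Continuous fun t => ker η t E :=
      (ker_cont hη).comp (continuous_id.prodMk continuous_const)
    exact h1.aestronglyMeasurable
  · rw [Real.norm_of_nonneg (ker_nonneg hη t E)]
    unfold ker
    rw [div_le_div_iff₀ (by positivity) hη]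
    nlinarith [sq_nonneg (t - E)]

/-- `∫⁻` form of the imaginary part -/
lemma ofReal_im {η : ℝ} (hη : 0 < η) (m : Measure ℝ) [IsFiniteMeasure m] (E : ℝ) :
    ENNReal.ofReal (∫ t : ℝ, 1 / ((t : ℂ) - zE E η) ∂m).im =
      ∫⁻ t, ENNReal.ofReal (ker η t E) ∂m := by
  rw [im_int hη, ofReal_integral_eq_lintegral_ofReal (ker_integ hη m E)
    (Eventually.of_forall fun t => ker_nonneg hη t E)]

lemma meas_ker {η : ℝ} (hη : 0 < η) :
    Measurable fun q : ℝ × ℝ => ENNReal.ofReal (ker η q.1 q.2) :=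
  ENNReal.measurable_ofReal.comp (ker_cont hη).measurable

lemma meas_ker' {η : ℝ} (hη : 0 < η) :
    Measurable fun q : ℝ × ℝ => ENNReal.ofReal (ker η q.2 q.1) := by
  have h1 : Continuous fun q : ℝ × ℝ => ker η q.2 q.1 := by
    unfold ker
    refine Continuous.div continuous_const (by fun_prop) fun q => ?_
    positivity
  exact ENNReal.measurable_ofReal.comp h1.measurable

lemma meas_im {η : ℝ} (hη : 0 < η) (m : Measure ℝ) [IsFiniteMeasure m] :
    Measurable fun E : ℝ => (∫ t : ℝ, 1 / ((t : ℂ) - zE E η) ∂m).im := by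
  have h1 : Measurable fun E : ℝ => ∫⁻ t, ENNReal.ofReal (ker η t E) ∂m :=
    (meas_ker' hη).lintegral_prod_right'
  have h2 : (fun E : ℝ => (∫ t : ℝ, 1 / ((t : ℂ) - zE E η) ∂m).im) =
      fun E => (∫⁻ t, ENNReal.ofReal (ker η t E) ∂m).toReal := by
    funext E
    rw [← ofReal_im hη, ENNReal.toReal_ofReal]
    rw [im_int hη]
    exact integral_nonneg fun t => ker_nonneg hη t E
  rw [h2]
  exact h1.ennreal_toReal

/-- near a point with large mass the Poisson integral is large -/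
lemma large {η : ℝ} (hη : 0 < η) (m : Measure ℝ) [IsFiniteMeasure m] (θ E E0 : ℝ)
    (hE : |E - E0| ≤ η) (h : ENNReal.ofReal (η ^ θ) < m (Icc (E0 - η) (E0 + η))) :
    η ^ (θ - 1) / 5 < (∫ t : ℝ, 1 / ((t : ℂ) - zE E η) ∂m).im := by
  rw [im_int hη]
  have h0 : 0 ≤ η ^ θ := Real.rpow_nonneg hη.le θ
  have h1 : η ^ θ < m.real (Icc (E0 - η) (E0 + η)) := by
    rw [measureReal_def]
    rwa [← ENNReal.ofReal_lt_iff_lt_toReal h0 (measure_ne_top _ _)]
  have h2 : ∀ t ∈ Icc (E0 - η) (E0 + η), 1 / (5 * η) ≤ ker η t E := by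
    intro t ht
    unfold ker
    rw [div_le_div_iff₀ (by positivity) (by positivity)]
    have h3 := abs_le.1 hE
    have h4 : (t - E) ^ 2 ≤ (2 * η) ^ 2 := by
      refine sq_le_sq' ?_ ?_
      · linarith [ht.1, h3.2]
      · linarith [ht.2, h3.1]
    nlinarith
  have h3 : ∫ t in Icc (E0 - η) (E0 + η), (1 / (5 * η)) ∂m ≤ ∫ t, ker η t E ∂m := by
    refine le_trans ?_ (setIntegral_le_integral (s := Icc (E0 - η) (E0 + η)) (ker_integ hη m E)
      (Eventually.of_forall fun t => ker_nonneg hη t E))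
    exact setIntegral_mono_on (integrable_const _).integrableOn (ker_integ hη m E).integrableOn
      measurableSet_Icc h2
  rw [setIntegral_const, smul_eq_mul] at h3
  refine lt_of_lt_of_le ?_ h3
  have h4 : η ^ (θ - 1) / 5 = η ^ θ * (1 / (5 * η)) := by
    rw [Real.rpow_sub hη, Real.rpow_one]
    field_simp
  rw [h4]
  exact mul_lt_mul_of_pos_right h1 (by positivity)

/-- **JOB SP1** -/
theorem sp1 : S_SP1 := by
  intro m η θ K hm hη hη1 hK
  set A : Set ℝ := Icc (-K) K ∩ {E | η ^ (θ - 1) / 5 < (∫ t : ℝ, 1 / ((t : ℂ) - zE E η) ∂m).im}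
    with hA
  have hAm : MeasurableSet A :=
    measurableSet_Icc.inter (measurableSet_lt measurable_const (meas_im hη m))
  have e1 : ∫⁻ E in A, ENNReal.ofReal (∫ t : ℝ, 1 / ((t : ℂ) - zE E η) ∂m).im =
      ∫⁻ t, (∫⁻ E in A, ENNReal.ofReal (ker η t E)) ∂m := by
    rw [lintegral_congr fun E => ofReal_im hη m E]
    exact lintegral_lintegral_swap (μ := volume.restrict A) (ν := m)
      (f := fun E t => ENNReal.ofReal (ker η t E)) (meas_ker' hη).aemeasurable
  rw [e1]
  have e2 : Measurable fun t => ∫⁻ E in A, ENNReal.ofReal (ker η t E) :=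
    (meas_ker hη).lintegral_prod_right'
  have e3 := mul_meas_ge_le_lintegral₀ (μ := m) e2.aemeasurable 1
  rw [one_mul] at e3
  refine le_trans (measure_mono (t := {t | 1 ≤ ∫⁻ E in A, ENNReal.ofReal (ker η t E)}) ?_) e3
  intro t ht
  obtain ⟨ht1, ht2⟩ := ht
  show 1 ≤ ∫⁻ E in A, ENNReal.ofReal (ker η t E)
  have e4 : Icc (t - η) (t + η) ⊆ A := by
    intro E hE
    have h1 : |E - t| ≤ η := abs_le.2 ⟨by linarith [hE.1], by linarith [hE.2]⟩
    exact ⟨⟨by linarith [hE.1, ht1.1], by linarith [hE.2, ht1.2]⟩, large hη m θ E t h1 ht2⟩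
  refine le_trans ?_ (lintegral_mono_set e4)
  have e5 : ∫⁻ _ in Icc (t - η) (t + η), ENNReal.ofReal (1 / (2 * η)) ≤
      ∫⁻ E in Icc (t - η) (t + η), ENNReal.ofReal (ker η t E) := by
    refine setLIntegral_mono' measurableSet_Icc fun E hE => ENNReal.ofReal_le_ofReal ?_
    unfold ker
    rw [div_le_div_iff₀ (by positivity) (by positivity)]
    have h4 : (t - E) ^ 2 ≤ η ^ 2 := by
      refine sq_le_sq' ?_ ?_
      · linarith [hE.2]
      · linarith [hE.1]
    nlinarith
  refine le_trans ?_ e5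
  rw [setLIntegral_const, Real.volume_Icc, ← ENNReal.ofReal_mul (by positivity)]
  rw [show 1 / (2 * η) * (t + η - (t - η)) = 1 by field_simp; ring]
  rw [ENNReal.ofReal_one]

end Pool.Agent.Q182.LR5
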